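import Pool.Agent.P.MP_7a7a2a_an.Defs

namespace Pool.Agent.P.MP_7a7a2a_an

open Filter Topology

variable {E : Type*} [NormedAddCommGroup E] [InnerProductSpace ℝ E]

theorem mem_tanCone_of_small {X : Set E} {x v : E} {δ : ℝ} (hδ : 0 < δ)
    (h : ∀ t, 0 < t → t ≤ δ → x + t • v ∈ X) : v ∈ TanCone X x := by
  refine ⟨fun k => δ * (1 / ((k : ℝ) + 1)), fun _ => v, fun k => by positivity, ?_,
    tendsto_const_nhds, fun k => h _ (by positivity) ?_⟩
  · simpa using (tendsto_one_div_add_atTop_nhds_zero_nat (𝕜 := ℝ)).const_mul δ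
  · have h1 : 1 / ((k : ℝ) + 1) ≤ 1 := by
      rw [div_le_one (by positivity)]
      have : (0 : ℝ) ≤ k := Nat.cast_nonneg k
      linarith
    nlinarith

theorem sub_mem_tanCone {X : Set E} (hX : Convex ℝ X) {x y : E} (hx : x ∈ X) (hy : y ∈ X) :
    y - x ∈ TanCone X x :=
  mem_tanCone_of_small one_pos fun _ ht ht1 => hX.add_smul_sub_mem hx hy ⟨ht.le, ht1⟩

theorem inner_le_of_tanCone {X : Set E} {x g v : E} (h : ∀ y ∈ X, inner ℝ g (y - x) ≤ 0)
    (hv : v ∈ TanCone X x) : inner ℝ g v ≤ 0 := by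
  obtain ⟨t, w, ht, -, hw, hX⟩ := hv
  have h1 : Tendsto (fun k => inner ℝ g (w k)) atTop (𝓝 (inner ℝ g v)) :=
    tendsto_const_nhds.inner hw
  refine le_of_tendsto' h1 fun k => ?_
  have h2 := h _ (hX k)
  rw [add_sub_cancel_left, inner_smul_right] at h2
  have := ht k
  by_contra h3
  push Not at h3
  nlinarith [mul_pos this h3]

theorem apocalypseFree_of_convex [CompleteSpace E] {X : Set E} (hX : Convex ℝ X)
    (hc : IsClosed X) : ApocalypseFree X := by
  intro f U hU hXU hf z x p hx hxz hp hp0 v hv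
  have hz : z ∈ X := hc.mem_of_tendsto hxz (Eventually.of_forall hx)
  have hcont : ContinuousAt (gradient f) z := by
    have h1 := (hf.continuousOn_fderiv_of_isOpen hU le_rfl).continuousAt (hU.mem_nhds (hXU hz))
    exact ((InnerProductSpace.toDual ℝ E).symm.continuous.continuousAt).comp h1
  have hg : Tendsto (fun k => -gradient f (x k)) atTop (𝓝 (-gradient f z)) :=
    (hcont.tendsto.comp hxz).neg
  have hp0' : Tendsto p atTop (𝓝 0) := tendsto_zero_iff_norm_tendsto_zero.2 hp0
  set g := -gradient f z with hgdef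
  have key : ∀ y ∈ X, dist g 0 ≤ dist g (y - z) := by
    intro y hy
    refine le_of_tendsto_of_tendsto' (hg.dist hp0') (hg.dist (tendsto_const_nhds.sub hxz)) ?_
    intro k
    exact (hp k).2 _ (sub_mem_tanCone hX (hx k) hy)
  have key2 : ∀ y ∈ X, inner ℝ g (y - z) ≤ 0 := by
    intro y hy
    by_contra hpos
    push Not at hpos
    set s := inner ℝ g (y - z) with hs
    set n := ‖y - z‖ ^ 2 with hn
    have hn0 : 0 ≤ n := by positivity
    set t := s / (s + n) with ht
    have ht0 : 0 < t := by positivity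
    have ht1 : t ≤ 1 := by rw [ht, div_le_one (by positivity)]; linarith
    have h1 := key _ (hX.add_smul_sub_mem hz hy ⟨ht0.le, ht1⟩)
    rw [add_sub_cancel_left, dist_eq_norm, dist_eq_norm, sub_zero] at h1
    have h2 : ‖g‖ ^ 2 ≤ ‖g - t • (y - z)‖ ^ 2 := by gcongr
    rw [norm_sub_sq_real, inner_smul_right, norm_smul, mul_pow, Real.norm_eq_abs, sq_abs,
      ← hs, ← hn] at h2
    have h3 : t * (s + n) = s := by rw [ht]; field_simp
    have h4 : 2 * s ≤ t * n := by
      have : t * (2 * s) ≤ t * (t * n) := by nlinarith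
      exact le_of_mul_le_mul_left this ht0
    nlinarith [mul_pos ht0 hpos]
  have h3 := inner_le_of_tanCone key2 hv
  rw [hgdef, inner_neg_left] at h3
  linarith

/-- Variational inequality implies nearest point. -/
theorem isProj_of_inner {K : Set E} {w p : E} (hp : p ∈ K)
    (h : ∀ q ∈ K, inner ℝ (w - p) (q - p) ≤ 0) : IsProj K w p := by
  refine ⟨hp, fun q hq => ?_⟩
  rw [dist_eq_norm, dist_eq_norm]
  apply le_of_sq_le_sq _ (norm_nonneg _)
  have h1 : w - q = (w - p) - (q - p) := by abel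
  rw [h1, norm_sub_sq_real (w - p)]
  have := h q hq
  nlinarith [sq_nonneg ‖q - p‖]

end Pool.Agent.P.MP_7a7a2a_an
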