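import Mathlib

/-! Definitions for the P²GD problem, following the problem file. -/

namespace Pool.Agent.P.MP_7a7a2a_an

open Filter Topology

variable {E : Type*} [NormedAddCommGroup E] [InnerProductSpace ℝ E] [CompleteSpace E]

/-- The Bouligand tangent cone of `X` at `x`. -/
def TanCone (X : Set E) (x : E) : Set E :=
  {v | ∃ (t : ℕ → ℝ) (w : ℕ → E), (∀ k, 0 < t k) ∧ Tendsto t atTop (𝓝 0) ∧
    Tendsto w atTop (𝓝 v) ∧ ∀ k, x + t k • w k ∈ X}

/-- `p` is a nearest point of `K` to `w`. -/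
def IsProj (K : Set E) (w p : E) : Prop :=
  p ∈ K ∧ ∀ q ∈ K, dist w p ≤ dist w q

/-- `x` is stationary for the minimisation of `f` on `X`. -/
def Stationary (X : Set E) (f : E → ℝ) (x : E) : Prop :=
  ∀ v ∈ TanCone X x, 0 ≤ inner ℝ (gradient f x) v

/-- No apocalypse on `X`: whenever `f` is `C¹` near `X`, `x k ∈ X` tends to `z` and
`s_f (x k) = ‖p k‖` tends to `0`, the point `z` is stationary. -/
def ApocalypseFree (X : Set E) : Prop :=
  ∀ (f : E → ℝ) (U : Set E), IsOpen U → X ⊆ U → ContDiffOn ℝ 1 f U →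
    ∀ (z : E) (x p : ℕ → E), (∀ k, x k ∈ X) → Tendsto x atTop (𝓝 z) →
      (∀ k, IsProj (TanCone X (x k)) (-gradient f (x k)) (p k)) →
      Tendsto (fun k => ‖p k‖) atTop (𝓝 0) → Stationary X f z

/-- `x` is a P²GD sequence with Armijo backtracking (parameters `a, β, c`), the backtracking
terminating at every iteration: `d` is the selected projected direction, `y i` the selected trial
point for the step `a * β ^ i`, and `j` the first accepted trial. -/
def IsP2GD (X : Set E) (f : E → ℝ) (a β c : ℝ) (x : ℕ → E) : Prop :=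
  ∀ k, ∃ (d : E) (y : ℕ → E) (j : ℕ),
    IsProj (TanCone X (x k)) (-gradient f (x k)) d ∧
    (∀ i, IsProj X (x k + (a * β ^ i) • d) (y i)) ∧
    IsLeast {i | f (y i) ≤ f (x k) - c * (a * β ^ i) * ‖d‖ ^ 2} j ∧
    x (k + 1) = y j

end Pool.Agent.P.MP_7a7a2a_an
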