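import Pool.Agent.P.MP_7a7a2a_an.Convex

/-!
Zigzag of P²GD in an obtuse wedge times a half-line, with a linear cost.
-/

namespace Pool.Agent.P.MP_7a7a2a_an

open Filter Topology

/-- Euclidean three-space. -/
abbrev E3 := EuclideanSpace ℝ (Fin 3)

theorem inner3 (x y : E3) : inner ℝ x y = x 0 * y 0 + x 1 * y 1 + x 2 * y 2 := by
  simp [PiLp.inner_apply, Fin.sum_univ_three]; ring

theorem normsq3 (x : E3) : ‖x‖ ^ 2 = x 0 ^ 2 + x 1 ^ 2 + x 2 ^ 2 := by
  rw [← real_inner_self_eq_norm_sq, inner3]; ring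

/-- The feasible polyhedron. -/
def XX (L : ℝ) : Set E3 := {p | p 0 ≤ 2 * p 1 ∧ -p 0 ≤ 2 * p 1 ∧ p 2 ≤ L}

theorem XX_closed (L : ℝ) : IsClosed (XX L) := by
  unfold XX
  simp only [Set.ofPred_and]
  refine IsClosed.inter (isClosed_le (by fun_prop) (by fun_prop))
    (IsClosed.inter (isClosed_le (by fun_prop) (by fun_prop))
      (isClosed_le (by fun_prop) (by fun_prop)))

theorem XX_convex (L : ℝ) : Convex ℝ (XX L) := by
  intro x hx y hy a b ha hb hab
  obtain ⟨h1, h2, h3⟩ := hx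
  obtain ⟨h4, h5, h6⟩ := hy
  refine ⟨?_, ?_, ?_⟩ <;> simp only [PiLp.add_apply, PiLp.smul_apply, smul_eq_mul]
  · nlinarith
  · nlinarith
  · have : a * L + b * L = L := by rw [← add_mul, hab, one_mul]
    nlinarith

/-- The gradient of the cost. -/
noncomputable def GG (e : ℝ) : E3 := !₂[0, 1, -e]

/-- The linear cost. -/
noncomputable def cost (e : ℝ) (y : E3) : ℝ := inner ℝ (GG e) y

theorem cost_apply (e : ℝ) (y : E3) : cost e y = y 1 - e * y 2 := by
  rw [cost, inner3]; simp [GG]; ring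

theorem cost_eq (e : ℝ) : cost e = InnerProductSpace.toDual ℝ E3 (GG e) := by
  funext y; simp [cost]

theorem gradient_cost (e : ℝ) (x : E3) : gradient (cost e) x = GG e := by
  apply HasGradientAt.gradient
  rw [hasGradientAt_iff_hasFDerivAt, cost_eq]
  exact ContinuousLinearMap.hasFDerivAt _

/-- A point on one of the two faces of the wedge. -/
noncomputable def pt (σ r z : ℝ) : E3 := !₂[2 * σ * r, r, z]

/-- The projected direction. -/
noncomputable def dir (σ e : ℝ) : E3 := !₂[-(2 / 5) * σ, -(1 / 5), e]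

/-- New distance parameter after a step `5 * a`. -/
noncomputable def phi (r a : ℝ) : ℝ := if a ≤ r then r - a else 3 / 5 * (a - r)

/-- New side after a step `5 * a`. -/
noncomputable def sgn (σ r a : ℝ) : ℝ := if a ≤ r then σ else -σ

theorem phi_nonneg (r a : ℝ) : 0 ≤ phi r a := by
  unfold phi; split_ifs with h <;> linarith

theorem sgn_cases {σ : ℝ} (hσ : σ = 1 ∨ σ = -1) (r a : ℝ) : sgn σ r a = 1 ∨ sgn σ r a = -1 := by
  unfold sgn; split_ifs <;> rcases hσ with h | h <;> simp [h]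

theorem pt_mem {σ r z L : ℝ} (hσ : σ = 1 ∨ σ = -1) (hr : 0 ≤ r) (hz : z ≤ L) :
    pt σ r z ∈ XX L := by
  refine ⟨?_, ?_, ?_⟩ <;> rcases hσ with h | h <;> simp [pt, h] <;> linarith

theorem proj_dir {σ r z L e : ℝ} (hσ : σ = 1 ∨ σ = -1) (hr : 0 < r) (he : 0 < e) (hz : z < L) :
    IsProj (TanCone (XX L) (pt σ r z)) (-GG e) (dir σ e) := by
  apply isProj_of_inner
  · refine mem_tanCone_of_small (δ := min (5 * r) ((L - z) / e))
      (lt_min (by positivity) (div_pos (by linarith) he)) fun t ht0 ht => ?_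
    have h1 : t ≤ 5 * r := ht.trans (min_le_left _ _)
    have h2 : t * e ≤ L - z := (le_div_iff₀ he).1 (ht.trans (min_le_right _ _))
    refine ⟨?_, ?_, ?_⟩ <;> rcases hσ with h | h <;> simp [pt, dir, h] <;> linarith
  · intro q hq
    have h1 : inner ℝ (!₂[σ, -2, 0] : E3) q ≤ 0 := by
      refine inner_le_of_tanCone (fun y hy => ?_) hq
      obtain ⟨h1, h2, -⟩ := hy
      rw [inner3]
      rcases hσ with h | h <;> simp [pt, h] <;> linarith
    rw [inner3] at h1 ⊢
    rcases hσ with h | h <;> simp [GG, dir, h] at h1 ⊢ <;> linarith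

theorem proj_trial {σ r z L e a : ℝ} (hσ : σ = 1 ∨ σ = -1) (hz : z + 5 * a * e ≤ L) :
    IsProj (XX L) (pt σ r z + (5 * a) • dir σ e)
      (pt (sgn σ r a) (phi r a) (z + 5 * a * e)) := by
  apply isProj_of_inner (pt_mem (sgn_cases hσ r a) (phi_nonneg r a) hz)
  intro q hq
  obtain ⟨h1, h2, -⟩ := hq
  rw [inner3]
  unfold sgn phi
  split_ifs with h
  · rcases hσ with h' | h' <;> simp [pt, dir, h'] <;> nlinarith
  · push Not at h
    have h3 : 0 < a - r := by linarith
    rcases hσ with h' | h'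
    · simp [pt, dir, h']
      nlinarith [mul_nonneg h3.le (show 0 ≤ q 0 + 2 * q 1 by linarith)]
    · simp [pt, dir, h']
      nlinarith [mul_nonneg h3.le (show 0 ≤ -q 0 + 2 * q 1 by linarith)]

theorem norm_dir {σ e : ℝ} (hσ : σ = 1 ∨ σ = -1) : ‖dir σ e‖ ^ 2 = 1 / 5 + e ^ 2 := by
  rw [normsq3]
  rcases hσ with h | h <;> simp [dir, h] <;> norm_num

theorem armijo_iff {σ r z e a c : ℝ} (hσ : σ = 1 ∨ σ = -1) :
    cost e (pt (sgn σ r a) (phi r a) (z + 5 * a * e)) ≤
        cost e (pt σ r z) - c * (5 * a) * ‖dir σ e‖ ^ 2 ↔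
      (c - 5 * (1 - c) * e ^ 2) * a ≤ r - phi r a := by
  rw [norm_dir hσ, cost_apply, cost_apply]
  simp only [pt, Matrix.cons_val_one, Matrix.cons_val_zero, Matrix.cons_val]
  constructor <;> intro h <;> nlinarith

section Dyn

variable (A β c' : ℝ)

/-- Reduced trial step. -/
noncomputable def st (i : ℕ) : ℝ := A * β ^ i / 5

/-- Accepted backtracking index. -/
noncomputable def jj (r : ℝ) : ℕ := sInf {i | c' * st A β i ≤ r - phi r (st A β i)}

/-- One step of the distance parameter. -/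
noncomputable def Phi (r : ℝ) : ℝ := phi r (st A β (jj A β c' r))

theorem preimage_countable {S : Set ℝ} (hS : S.Countable) : (Phi A β c' ⁻¹' S).Countable := by
  have h1 : (⋃ i : ℕ, ((fun s => s + st A β i) '' S ∪
      (fun s => st A β i - 5 / 3 * s) '' S)).Countable :=
    Set.countable_iUnion fun i => (hS.image _).union (hS.image _)
  refine h1.mono fun r hr => ?_
  rw [Set.mem_iUnion]
  refine ⟨jj A β c' r, ?_⟩
  rw [Set.mem_preimage, Phi, phi] at hr
  split_ifs at hr with h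
  · exact Or.inl ⟨_, hr, by simp⟩
  · exact Or.inr ⟨_, hr, by simp only; ring⟩

theorem exists_start : ∃ r, 0 < r ∧ r < 1 ∧ ∀ k, (Phi A β c')^[k] r ≠ 0 := by
  have h1 : ∀ k, ((Phi A β c')^[k] ⁻¹' {0}).Countable := by
    intro k
    induction k with
    | zero => simp
    | succ k ih =>
      rw [Function.iterate_succ, Set.preimage_comp]
      exact preimage_countable A β c' ih
  have h2 : (⋃ k, (Phi A β c')^[k] ⁻¹' {0}).Countable := Set.countable_iUnion h1
  obtain ⟨r, hr1, hr2⟩ := (h2.dense_compl ℝ).exists_mem_open (isOpen_Ioo (a := (0 : ℝ)) (b := 1))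
    ⟨1 / 2, by norm_num, by norm_num⟩
  refine ⟨r, hr2.1, hr2.2, fun k hk => hr1 ?_⟩
  exact Set.mem_iUnion.2 ⟨k, hk⟩

variable {A β c'}

theorem st_pos (hA : 0 < A) (hβ : 0 < β) (i : ℕ) : 0 < st A β i := by
  unfold st; positivity

theorem st_le (hA : 0 < A) (hβ : 0 < β) (hβ1 : β < 1) (i : ℕ) : st A β i ≤ A / 5 := by
  unfold st
  have : β ^ i ≤ 1 := pow_le_one₀ hβ.le hβ1.le
  nlinarith

theorem jj_isLeast (hA : 0 < A) (hβ : 0 < β) (hβ1 : β < 1) (hc : c' ≤ 1) {r : ℝ} (hr : 0 < r) :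
    IsLeast {i | c' * st A β i ≤ r - phi r (st A β i)} (jj A β c' r) := by
  refine ⟨Nat.sInf_mem ?_, fun i hi => Nat.sInf_le hi⟩
  obtain ⟨i, hi⟩ := exists_pow_lt_of_lt_one (show 0 < 5 * r / A by positivity) hβ1
  have h1 : st A β i ≤ r := by
    unfold st
    rw [lt_div_iff₀ hA] at hi
    linarith
  refine ⟨i, ?_⟩
  have h2 := st_pos hA hβ i
  simp only [Set.mem_ofPred_eq, phi, if_pos h1]
  nlinarith

end Dyn

theorem dist_step {σ r z e a : ℝ} (hσ : σ = 1 ∨ σ = -1) (ha : 0 < a) (hr : 0 < r)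
    (he0 : 0 < e) (he : e ≤ 1) :
    dist (pt σ r z) (pt (sgn σ r a) (phi r a) (z + 5 * a * e)) ≤ 10 * a := by
  rw [dist_eq_norm]
  apply le_of_sq_le_sq _ (by positivity)
  rw [normsq3]
  have h1 : (a * e) ^ 2 ≤ a ^ 2 := by
    apply pow_le_pow_left₀ (by positivity); nlinarith
  unfold sgn phi
  split_ifs with h
  · rcases hσ with h' | h' <;> simp [pt, h'] <;> nlinarith
  · push Not at h
    rcases hσ with h' | h' <;> simp [pt, h'] <;> nlinarith

theorem main (A β c : ℝ) (hA : 0 < A) (hβ : 0 < β) (hβ1 : β < 1) (hc : 0 < c) (hc1 : c < 1) :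
    ∃ (L e : ℝ) (x : ℕ → E3) (z : E3), 0 < e ∧ x 0 ∈ XX L ∧ IsP2GD (XX L) (cost e) A β c x ∧
      Tendsto x atTop (𝓝 z) ∧ ¬ Stationary (XX L) (cost e) z := by
  set e := c / 4 with he
  have he0 : 0 < e := by positivity
  have he1 : e ≤ 1 := by rw [he]; linarith
  set c' := c - 5 * (1 - c) * e ^ 2 with hc'
  have hc'0 : 0 < c' := by rw [hc', he]; nlinarith [mul_pos hc hc, mul_pos hc (mul_pos hc hc)]
  have hc'1 : c' ≤ 1 := by
    have : 0 ≤ 5 * (1 - c) * e ^ 2 := by
      have : 0 ≤ 1 - c := by linarith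
      positivity
    linarith
  obtain ⟨r0, hr0, hr1, hr⟩ := exists_start A β c'
  let R : ℕ → ℝ := fun k => (Phi A β c')^[k] r0
  let a : ℕ → ℝ := fun k => st A β (jj A β c' (R k))
  have hRs : ∀ k, R (k + 1) = phi (R k) (a k) := fun k => Function.iterate_succ_apply' _ _ _
  have hRpos : ∀ k, 0 < R k := by
    intro k
    cases k with
    | zero => exact hr0
    | succ k => exact lt_of_le_of_ne (hRs k ▸ phi_nonneg _ _) (hr (k + 1)).symm
  have hapos : ∀ k, 0 < a k := fun k => st_pos hA hβ _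
  have harm : ∀ k, c' * a k ≤ R k - R (k + 1) := fun k =>
    hRs k ▸ (jj_isLeast hA hβ hβ1 hc'1 (hRpos k)).1
  have hsum : ∀ n, ∑ k ∈ Finset.range n, a k ≤ 1 / c' := by
    intro n
    have h1 : c' * ∑ k ∈ Finset.range n, a k ≤ R 0 - R n := by
      induction n with
      | zero => simp
      | succ n ih => rw [Finset.sum_range_succ]; linarith [harm n]
    rw [le_div_iff₀ hc'0]
    have h2 : R 0 = r0 := rfl
    linarith [hRpos n]
  have hsummable : Summable a := summable_of_sum_range_le (fun k => (hapos k).le) hsum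
  let σ : ℕ → ℝ := fun k => Nat.rec 1 (fun k s => sgn s (R k) (a k)) k
  have hσs : ∀ k, σ (k + 1) = sgn (σ k) (R k) (a k) := fun k => rfl
  have hσ : ∀ k, σ k = 1 ∨ σ k = -1 := by
    intro k
    induction k with
    | zero => exact Or.inl rfl
    | succ k ih => exact hσs k ▸ sgn_cases ih _ _
  let Z : ℕ → ℝ := fun n => 5 * (∑ k ∈ Finset.range n, a k) * e
  have hZs : ∀ k, Z (k + 1) = Z k + 5 * a k * e := by
    intro k; simp only [Z, Finset.sum_range_succ]; ring
  have hZ : ∀ k, Z k ≤ 5 * (1 / c') * e := by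
    intro k; simp only [Z]; gcongr; exact hsum k
  set L := 5 * (1 / c') * e + A * e with hL
  have hAe : 0 < A * e := by positivity
  let x : ℕ → E3 := fun k => pt (σ k) (R k) (Z k)
  have hxX : ∀ k, x k ∈ XX L := fun k => pt_mem (hσ k) (hRpos k).le (by linarith [hZ k])
  have hxs : ∀ k, x (k + 1) = pt (sgn (σ k) (R k) (a k)) (phi (R k) (a k)) (Z k + 5 * a k * e) := by
    intro k; simp only [x]; rw [hσs, hRs, hZs]
  have hcauchy : CauchySeq x := by
    refine cauchySeq_of_dist_le_of_summable (fun k => 10 * a k) (fun k => ?_)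
      (hsummable.mul_left 10)
    rw [hxs]
    exact dist_step (hσ k) (hapos k) (hRpos k) he0 he1
  obtain ⟨z, hz⟩ := cauchySeq_tendsto_of_complete hcauchy
  have hzX : z ∈ XX L := (XX_closed L).mem_of_tendsto hz (Eventually.of_forall hxX)
  have hz2 : z 2 ≤ 5 * (1 / c') * e := by
    have h1 : Tendsto (fun k => x k 2) atTop (𝓝 (z 2)) :=
      ((EuclideanSpace.proj (𝕜 := ℝ) (2 : Fin 3)).continuous.tendsto z).comp hz
    refine le_of_tendsto' h1 fun k => ?_
    simpa [x, pt] using hZ k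
  refine ⟨L, e, x, z, he0, hxX 0, fun k => ?_, hz, fun hst => ?_⟩
  · refine ⟨dir (σ k) e, fun i => pt (sgn (σ k) (R k) (st A β i)) (phi (R k) (st A β i))
      (Z k + 5 * st A β i * e), jj A β c' (R k), ?_, fun i => ?_, ?_, hxs k⟩
    · rw [gradient_cost]
      exact proj_dir (hσ k) (hRpos k) he0 (by linarith [hZ k])
    · have h1 : A * β ^ i = 5 * st A β i := by unfold st; ring
      rw [h1]
      refine proj_trial (hσ k) ?_
      have := st_le hA hβ hβ1 i
      nlinarith [hZ k]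
    · have h1 : ∀ i, A * β ^ i = 5 * st A β i := by intro i; unfold st; ring
      simp only [h1, x, armijo_iff (hσ k)]
      exact jj_isLeast hA hβ hβ1 hc'1 (hRpos k)
  · have hv : (!₂[0, 0, 1] : E3) ∈ TanCone (XX L) z := by
      refine mem_tanCone_of_small hAe fun t _ ht => ?_
      obtain ⟨h1, h2, -⟩ := hzX
      refine ⟨?_, ?_, ?_⟩ <;> simp <;> linarith
    have := hst _ hv
    rw [gradient_cost, inner3] at this
    simp [GG] at this
    linarith

theorem sublevel_bounded {L e m : ℝ} (he : 0 < e) :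
    Bornology.IsBounded {y ∈ XX L | cost e y ≤ m} := by
  rw [isBounded_iff_forall_norm_le]
  refine ⟨√(5 * (m + e * L) ^ 2 + (L ^ 2 + (m / e) ^ 2)), ?_⟩
  rintro y ⟨⟨h1, h2, h3⟩, h4⟩
  rw [cost_apply] at h4
  apply Real.le_sqrt_of_sq_le
  rw [normsq3]
  have h5 : 0 ≤ y 1 := by linarith
  have h6 : y 1 ≤ m + e * L := by nlinarith
  have h7 : -(m / e) ≤ y 2 := by
    rw [← neg_div, div_le_iff₀ he]; nlinarith
  have h8 : y 1 ^ 2 ≤ (m + e * L) ^ 2 := by gcongr
  have h9 : y 0 ^ 2 ≤ (2 * y 1) ^ 2 := sq_le_sq' (by linarith) h1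
  have h10 : y 2 ^ 2 ≤ L ^ 2 + (m / e) ^ 2 := by
    rcases le_total 0 (y 2) with h | h
    · have : y 2 ^ 2 ≤ L ^ 2 := by gcongr
      nlinarith [sq_nonneg (m / e)]
    · have : (-y 2) ^ 2 ≤ (m / e) ^ 2 := by
        apply pow_le_pow_left₀ (by linarith); linarith
      nlinarith [sq_nonneg L]
  nlinarith

end Pool.Agent.P.MP_7a7a2a_an
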